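import Mathlib

/-!
# Spherical growth versus ball growth of the first Grigorchuk group

We prove that for the first Grigorchuk group `G = ⟨a,b,c,d⟩` the spherical growth function and the
ball growth function are equivalent: there is `C ≥ 1` with `γ(n) ≤ γ_sph(C n)` for all `n ≥ 1`.
-/

namespace Pool.Agent.Results.MP_03d093_al.SphericalGrowth

/-- Vertices of the rooted binary tree: finite words over `{0,1}`; `false` is the letter `0` and
`true` is the letter `1`. -/
abbrev Word : Type := List Bool

/-- `a(0w) = 1w`, `a(1w) = 0w`. -/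
def aFun : Word → Word
  | [] => []
  | x :: w => (!x) :: w

mutual
  /-- `b(0w) = 0 a(w)`, `b(1w) = 1 c(w)`. -/
  def bFun : Word → Word
    | [] => []
    | false :: w => false :: aFun w
    | true :: w => true :: cFun w
  /-- `c(0w) = 0 a(w)`, `c(1w) = 1 d(w)`. -/
  def cFun : Word → Word
    | [] => []
    | false :: w => false :: aFun w
    | true :: w => true :: dFun w
  /-- `d(0w) = 0w`, `d(1w) = 1 b(w)`. -/
  def dFun : Word → Word
    | [] => []
    | false :: w => false :: w
    | true :: w => true :: bFun w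
end

theorem aFun_aFun (w : Word) : aFun (aFun w) = w := by
  cases w with
  | nil => rfl
  | cons x w => simp [aFun]

theorem bcd_invol (w : Word) :
    bFun (bFun w) = w ∧ cFun (cFun w) = w ∧ dFun (dFun w) = w := by
  induction w with
  | nil => simp [bFun, cFun, dFun]
  | cons x w ih =>
    obtain ⟨h1, h2, h3⟩ := ih
    cases x <;> simp [bFun, cFun, dFun, aFun_aFun, h1, h2, h3]

/-- The generator `a` of the Grigorchuk group, as a permutation of the vertices of the tree. -/
def a : Equiv.Perm Word := ⟨aFun, aFun, aFun_aFun, aFun_aFun⟩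
/-- The generator `b`. -/
def b : Equiv.Perm Word := ⟨bFun, bFun, fun w => (bcd_invol w).1, fun w => (bcd_invol w).1⟩
/-- The generator `c`. -/
def c : Equiv.Perm Word := ⟨cFun, cFun, fun w => (bcd_invol w).2.1, fun w => (bcd_invol w).2.1⟩
/-- The generator `d`. -/
def d : Equiv.Perm Word := ⟨dFun, dFun, fun w => (bcd_invol w).2.2, fun w => (bcd_invol w).2.2⟩

/-- The generating set `{a,b,c,d}`. -/
def gens : Set (Equiv.Perm Word) := {a, b, c, d}

/-- The first Grigorchuk group. -/
def G : Subgroup (Equiv.Perm Word) := Subgroup.closure gens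

/-- The word length of `g` with respect to `{a,b,c,d}`: the least length of a list of generators
and inverses of generators whose product is `g`. -/
noncomputable def wordLength (g : Equiv.Perm Word) : ℕ :=
  sInf {n | ∃ l : List (Equiv.Perm Word),
    (∀ s ∈ l, s ∈ gens ∨ s⁻¹ ∈ gens) ∧ l.length = n ∧ l.prod = g}

/-- The growth function `γ_G(n) = #{g ∈ G : |g| ≤ n}`. -/
noncomputable def ballGrowth (n : ℕ) : ℕ := {g | g ∈ G ∧ wordLength g ≤ n}.ncard

/-- The spherical growth function `γ_G^sph(n) = #{g ∈ G : |g| = n}`. -/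
noncomputable def sphGrowth (n : ℕ) : ℕ := {g | g ∈ G ∧ wordLength g = n}.ncard

/-- `f ⪯ h` if there is an integer `C ≥ 1` with `f(n) ≤ h(Cn)` for all `n ≥ 1`. -/
def Dominated (f h : ℕ → ℕ) : Prop := ∃ C : ℕ, 1 ≤ C ∧ ∀ n : ℕ, 1 ≤ n → f n ≤ h (C * n)

/-- `f ∼ h` if `f ⪯ h` and `h ⪯ f`. -/
def GrowthEquiv (f h : ℕ → ℕ) : Prop := Dominated f h ∧ Dominated h f

/-! ## Basic facts about the word length -/

theorem a_cons (x : Bool) (w : Word) : a (x :: w) = (!x) :: w := rfl
theorem b_false (w : Word) : b (false :: w) = false :: a w := by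
  change bFun (false :: w) = false :: aFun w
  simp [bFun]
theorem b_true (w : Word) : b (true :: w) = true :: c w := by
  change bFun (true :: w) = true :: cFun w
  simp [bFun]
theorem c_false (w : Word) : c (false :: w) = false :: a w := by
  change cFun (false :: w) = false :: aFun w
  simp [cFun]
theorem c_true (w : Word) : c (true :: w) = true :: d w := by
  change cFun (true :: w) = true :: dFun w
  simp [cFun]
theorem d_false (w : Word) : d (false :: w) = false :: w := by
  change dFun (false :: w) = false :: w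
  simp [dFun]
theorem d_true (w : Word) : d (true :: w) = true :: b w := by
  change dFun (true :: w) = true :: bFun w
  simp [dFun]
theorem d_nil : d [] = [] := by
  change dFun [] = []
  simp [dFun]
theorem a_nil : a [] = [] := rfl

theorem a_inv : a⁻¹ = a := rfl
theorem b_inv : b⁻¹ = b := rfl
theorem c_inv : c⁻¹ = c := rfl
theorem d_inv : d⁻¹ = d := rfl

theorem a_mul_a : a * a = 1 := by
  have h := mul_inv_cancel a
  rwa [a_inv] at h

theorem d_mul_d : d * d = 1 := by
  have h := mul_inv_cancel d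
  rwa [d_inv] at h

theorem gens_inv {s : Equiv.Perm Word} (hs : s ∈ gens) : s⁻¹ = s := by
  rcases hs with rfl | rfl | rfl | rfl
  · exact a_inv
  · exact b_inv
  · exact c_inv
  · exact d_inv

theorem mem_gens_of_or {s : Equiv.Perm Word} (hs : s ∈ gens ∨ s⁻¹ ∈ gens) : s ∈ gens := by
  rcases hs with h | h
  · exact h
  · have := gens_inv h
    rw [inv_inv] at this
    rw [this]; exact h

theorem prod_mem_G {l : List (Equiv.Perm Word)} (hl : ∀ s ∈ l, s ∈ gens ∨ s⁻¹ ∈ gens) :
    l.prod ∈ G := by
  apply Subgroup.list_prod_mem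
  intro s hs
  exact Subgroup.subset_closure (mem_gens_of_or (hl s hs))

theorem exists_word {g : Equiv.Perm Word} (hg : g ∈ G) :
    ∃ l : List (Equiv.Perm Word), (∀ s ∈ l, s ∈ gens ∨ s⁻¹ ∈ gens) ∧ l.prod = g := by
  have hg' : g ∈ (Subgroup.closure gens).toSubmonoid := hg
  rw [Subgroup.closure_toSubmonoid] at hg'
  obtain ⟨l, hl, hp⟩ := Submonoid.exists_list_of_mem_closure hg'
  refine ⟨l, fun s hs => ?_, hp⟩
  rcases hl s hs with h | h
  · exact Or.inl h
  · exact Or.inr h

theorem exists_geodesic {g : Equiv.Perm Word} (hg : g ∈ G) :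
    ∃ l : List (Equiv.Perm Word), (∀ s ∈ l, s ∈ gens ∨ s⁻¹ ∈ gens) ∧
      l.length = wordLength g ∧ l.prod = g := by
  have hne : {n | ∃ l : List (Equiv.Perm Word),
    (∀ s ∈ l, s ∈ gens ∨ s⁻¹ ∈ gens) ∧ l.length = n ∧ l.prod = g}.Nonempty := by
    obtain ⟨l, hl, hp⟩ := exists_word hg
    exact ⟨l.length, l, hl, rfl, hp⟩
  exact Nat.sInf_mem hne

theorem wordLength_le {l : List (Equiv.Perm Word)} (hl : ∀ s ∈ l, s ∈ gens ∨ s⁻¹ ∈ gens) :
    wordLength l.prod ≤ l.length :=
  Nat.sInf_le ⟨l, hl, rfl, rfl⟩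

theorem wordLength_mul {g h : Equiv.Perm Word} (hg : g ∈ G) (hh : h ∈ G) :
    wordLength (g * h) ≤ wordLength g + wordLength h := by
  obtain ⟨l, hl, hln, hlp⟩ := exists_geodesic hg
  obtain ⟨m, hm, hmn, hmp⟩ := exists_geodesic hh
  have := wordLength_le (l := l ++ m) (by
    intro s hs
    rcases List.mem_append.1 hs with h | h
    · exact hl s h
    · exact hm s h)
  rw [List.prod_append, hlp, hmp, List.length_append, hln, hmn] at this
  exact this

theorem wordLength_inv_le {g : Equiv.Perm Word} (hg : g ∈ G) :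
    wordLength g⁻¹ ≤ wordLength g := by
  obtain ⟨l, hl, hln, hlp⟩ := exists_geodesic hg
  have := wordLength_le (l := (l.map (fun x => x⁻¹)).reverse) (by
    intro s hs
    rw [List.mem_reverse, List.mem_map] at hs
    obtain ⟨t, ht, rfl⟩ := hs
    rcases hl t ht with h | h
    · right; simpa using h
    · left; exact h)
  rw [← List.prod_inv_reverse, hlp] at this
  simpa [hln] using this

theorem wordLength_inv {g : Equiv.Perm Word} (hg : g ∈ G) :
    wordLength g⁻¹ = wordLength g := by
  apply le_antisymm (wordLength_inv_le hg)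
  have := wordLength_inv_le (G.inv_mem hg)
  rwa [inv_inv] at this

theorem wordLength_one : wordLength 1 = 0 := by
  have := wordLength_le (l := []) (by simp)
  simpa using this

theorem wordLength_gen {s : Equiv.Perm Word} (hs : s ∈ gens ∨ s⁻¹ ∈ gens) :
    wordLength s ≤ 1 := by
  have := wordLength_le (l := [s]) (by simpa using hs)
  simpa using this

theorem gen_mem {s : Equiv.Perm Word} (hs : s ∈ gens ∨ s⁻¹ ∈ gens) : s ∈ G :=
  Subgroup.subset_closure (mem_gens_of_or hs)

/-! ## Balls are finite -/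

theorem words_finite (n : ℕ) :
    {g | ∃ l : List (Equiv.Perm Word), l.length ≤ n ∧ (∀ s ∈ l, s ∈ gens) ∧ l.prod = g}.Finite := by
  induction n with
  | zero =>
    refine Set.Finite.subset (Set.finite_singleton 1) ?_
    rintro g ⟨l, hl, -, rfl⟩
    have : l = [] := List.length_eq_zero_iff.1 (Nat.le_zero.1 hl)
    subst this
    simp
  | succ n ih =>
    have hgens : gens.Finite := by
      unfold gens; exact Set.toFinite _
    refine Set.Finite.subset ((Set.finite_singleton 1).union (hgens.mul ih)) ?_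
    rintro g ⟨l, hl, hs, rfl⟩
    cases l with
    | nil => left; simp
    | cons x l =>
      right
      refine ⟨x, hs x (by simp), l.prod, ⟨l, by simpa using hl, fun s h => hs s (by simp [h]), rfl⟩, ?_⟩
      simp

theorem ball_finite (n : ℕ) : {g | g ∈ G ∧ wordLength g ≤ n}.Finite := by
  refine Set.Finite.subset (words_finite n) ?_
  rintro g ⟨hg, hn⟩
  obtain ⟨l, hl, hln, hlp⟩ := exists_geodesic hg
  exact ⟨l, hln ▸ hn, fun s hs => mem_gens_of_or (hl s hs), hlp⟩

theorem sphere_finite (n : ℕ) : {g | g ∈ G ∧ wordLength g = n}.Finite :=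
  (ball_finite n).subset fun _ hg => ⟨hg.1, hg.2.le⟩

/-! ## Sections: lifting an element to the subtree at `1` -/

/-- The finite set of values of the other section: the dihedral group of order eight generated
by `a` and `d`. -/
def D8 : Set (Equiv.Perm Word) :=
  {1, a, d, a * d, d * a, a * d * a, d * a * d, a * d * a * d}

theorem D8_finite : D8.Finite := by
  unfold D8; exact Set.toFinite _

theorem adad : a * d * a * d = d * a * d * a := by
  ext1 w
  cases w with
  | nil => simp [Equiv.Perm.mul_apply, a_nil, d_nil]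
  | cons x w => cases x <;> simp [Equiv.Perm.mul_apply, a_cons, d_false, d_true]

theorem D8_a {f : Equiv.Perm Word} (hf : f ∈ D8) : a * f ∈ D8 := by
  have haa := a_mul_a
  have h2 : ∀ x, a * (a * x) = x := fun x => by rw [← mul_assoc, haa, one_mul]
  rcases hf with rfl | rfl | rfl | rfl | rfl | rfl | rfl | rfl <;>
    simp [D8, mul_assoc, h2, haa]

theorem D8_d {f : Equiv.Perm Word} (hf : f ∈ D8) : d * f ∈ D8 := by
  have hdd := d_mul_d
  have h2 : ∀ x, d * (d * x) = x := fun x => by rw [← mul_assoc, hdd, one_mul]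
  have h3 : d * (a * (d * a)) = a * (d * (a * d)) := by
    have := adad
    simp only [mul_assoc] at this
    exact this.symm
  have h4 : d * (a * (d * (a * d))) = a * (d * a) := by
    have h5 := congrArg (fun x => x * d) h3
    simp only [mul_assoc, hdd, mul_one] at h5
    exact h5
  rcases hf with rfl | rfl | rfl | rfl | rfl | rfl | rfl | rfl <;>
    simp [D8, mul_assoc, h2, hdd, h3, h4]

theorem one_mem_D8 : (1 : Equiv.Perm Word) ∈ D8 := by simp [D8]

theorem a_mem_G : a ∈ G := Subgroup.subset_closure (by simp [gens])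
theorem b_mem_G : b ∈ G := Subgroup.subset_closure (by simp [gens])
theorem c_mem_G : c ∈ G := Subgroup.subset_closure (by simp [gens])
theorem d_mem_G : d ∈ G := Subgroup.subset_closure (by simp [gens])

theorem wl_a : wordLength a ≤ 1 := wordLength_gen (by simp [gens])
theorem wl_b : wordLength b ≤ 1 := wordLength_gen (by simp [gens])
theorem wl_c : wordLength c ≤ 1 := wordLength_gen (by simp [gens])
theorem wl_d : wordLength d ≤ 1 := wordLength_gen (by simp [gens])

/-- Lifting one generator: the substitution `a ↦ aca`, `b ↦ d`, `c ↦ b`, `d ↦ c`. -/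
theorem lift_gen {s : Equiv.Perm Word} (hs : s ∈ gens) :
    ∃ t ∈ G, wordLength t ≤ 3 ∧ ∃ f : Equiv.Perm Word, (f = 1 ∨ f = a ∨ f = d) ∧
      ∀ w, t (true :: w) = true :: s w ∧ t (false :: w) = false :: f w := by
  rcases hs with rfl | rfl | rfl | rfl
  · refine ⟨a * c * a, G.mul_mem (G.mul_mem a_mem_G c_mem_G) a_mem_G, ?_, d, by simp, ?_⟩
    · have h1 := wordLength_mul a_mem_G c_mem_G
      have h2 := wordLength_mul (G.mul_mem a_mem_G c_mem_G) a_mem_G
      have := wl_a
      have := wl_c
      omega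
    · intro w
      simp [Equiv.Perm.mul_apply, a_cons, c_false, c_true]
  · refine ⟨d, d_mem_G, by have := wl_d; omega, 1, by simp, ?_⟩
    intro w
    simp [d_false, d_true]
  · refine ⟨b, b_mem_G, by have := wl_b; omega, a, by simp, ?_⟩
    intro w
    simp [b_false, b_true]
  · refine ⟨c, c_mem_G, by have := wl_c; omega, a, by simp, ?_⟩
    intro w
    simp [c_false, c_true]

/-- Lifting a word. -/
theorem lift_word (l : List (Equiv.Perm Word)) (hl : ∀ s ∈ l, s ∈ gens) :
    ∃ t ∈ G, wordLength t ≤ 3 * l.length ∧ ∃ f ∈ D8,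
      ∀ w, t (true :: w) = true :: l.prod w ∧ t (false :: w) = false :: f w := by
  induction l with
  | nil =>
    refine ⟨1, G.one_mem, by simp [wordLength_one], 1, one_mem_D8, ?_⟩
    intro w; simp
  | cons s l ih =>
    obtain ⟨t, ht, htl, f, hf, hw⟩ := ih (fun x hx => hl x (by simp [hx]))
    obtain ⟨t', ht', htl', f', hf', hw'⟩ := lift_gen (hl s (by simp))
    refine ⟨t' * t, G.mul_mem ht' ht, ?_, f' * f, ?_, ?_⟩
    · have := wordLength_mul ht' ht
      simp only [List.length_cons]
      omega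
    · rcases hf' with rfl | rfl | rfl
      · simpa using hf
      · exact D8_a hf
      · exact D8_d hf
    · intro w
      simp [Equiv.Perm.mul_apply, hw, hw']

/-- Lifting an element of `G` of length at most `n`. -/
theorem lift_elt {g : Equiv.Perm Word} (hg : g ∈ G) :
    ∃ t ∈ G, wordLength t ≤ 3 * wordLength g ∧ ∃ f ∈ D8,
      ∀ w, t (true :: w) = true :: g w ∧ t (false :: w) = false :: f w := by
  obtain ⟨l, hl, hln, hlp⟩ := exists_geodesic hg
  obtain ⟨t, ht, htl, f, hf, hw⟩ := lift_word l (fun s hs => mem_gens_of_or (hl s hs))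
  rw [hln] at htl
  rw [hlp] at hw
  exact ⟨t, ht, htl, f, hf, hw⟩

/-! ## `G` is infinite -/

theorem G_infinite : (G : Set (Equiv.Perm Word)).Infinite := by
  intro hfin
  choose! T hT using fun g (hg : g ∈ G) => lift_elt hg
  have hmaps : Set.MapsTo T (G : Set (Equiv.Perm Word)) G := fun g hg => (hT g hg).1
  have hinj : Set.InjOn T (G : Set (Equiv.Perm Word)) := by
    intro g hg h hh hgh
    obtain ⟨-, -, f, -, hw⟩ := hT g hg
    obtain ⟨-, -, f', -, hw'⟩ := hT h hh
    ext1 w
    have h1 := (hw w).1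
    have h2 := (hw' w).1
    rw [hgh, h2] at h1
    exact (List.cons.inj h1).2.symm
  have hsurj : Set.SurjOn T (G : Set (Equiv.Perm Word)) G :=
    ((hfin.injOn_iff_bijOn_of_mapsTo hmaps).1 hinj).surjOn
  obtain ⟨g, hg, hga⟩ := hsurj a_mem_G
  obtain ⟨-, -, f, -, hw⟩ := hT g hg
  have h1 := (hw []).1
  rw [hga, a_cons] at h1
  simp at h1

/-- There are elements of every prescribed length. -/
theorem exists_length (n : ℕ) :
    ∃ l : List (Equiv.Perm Word), (∀ s ∈ l, s ∈ gens) ∧ l.length = n ∧ wordLength l.prod = n := by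
  have hnot : ¬ ((G : Set (Equiv.Perm Word)) ⊆ {g | g ∈ G ∧ wordLength g ≤ n}) := fun h =>
    G_infinite ((ball_finite n).subset h)
  obtain ⟨g, hg, hgn⟩ := Set.not_subset.1 hnot
  have hgn' : n < wordLength g := by
    by_contra hcon
    exact hgn ⟨hg, not_lt.1 hcon⟩
  obtain ⟨l, hl, hln, hlp⟩ := exists_geodesic hg
  have hl1 : ∀ s ∈ l.take n, s ∈ gens ∨ s⁻¹ ∈ gens := fun s hs => hl s (List.mem_of_mem_take hs)
  have hl2 : ∀ s ∈ l.drop n, s ∈ gens ∨ s⁻¹ ∈ gens := fun s hs => hl s (List.mem_of_mem_drop hs)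
  have hlen : (l.take n).length = n := by
    rw [List.length_take]; omega
  refine ⟨l.take n, fun s hs => mem_gens_of_or (hl1 s hs), hlen, ?_⟩
  apply le_antisymm
  · have := wordLength_le hl1
    rwa [hlen] at this
  · have h1 := wordLength_mul (prod_mem_G hl1) (prod_mem_G hl2)
    rw [← List.prod_append, List.take_append_drop, hlp] at h1
    have h2 := wordLength_le hl2
    rw [List.length_drop] at h2
    omega

/-! ## Comparison of the ball and the sphere of the same radius -/

/-- A discrete intermediate value property. -/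
theorem discrete_ivt (φ : ℕ → ℕ) (m n : ℕ) (h0 : φ 0 ≤ n) (hm : n ≤ φ m)
    (hstep : ∀ i < m, φ (i + 1) ≤ φ i + 1) : ∃ i ≤ m, φ i = n := by
  induction m with
  | zero => exact ⟨0, le_rfl, le_antisymm h0 hm⟩
  | succ m ih =>
    by_cases h : n ≤ φ m
    · obtain ⟨i, hi, hin⟩ := ih h (fun i hi => hstep i (by omega))
      exact ⟨i, by omega, hin⟩
    · refine ⟨m + 1, le_rfl, ?_⟩
      have := hstep m (by omega)
      omega

theorem ball_le_sphere (n : ℕ) : ballGrowth n ≤ (2 * n + 1) * sphGrowth n := by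
  obtain ⟨l, hl, hlen, hwl⟩ := exists_length (2 * n)
  set u : ℕ → Equiv.Perm Word := fun i => (l.take i).prod with hu
  have hmem : ∀ i, u i ∈ G := fun i =>
    prod_mem_G fun s hs => Or.inl (hl s (List.mem_of_mem_take hs))
  have hsub : {g | g ∈ G ∧ wordLength g ≤ n} ⊆
      ⋃ i ∈ Finset.range (2 * n + 1), (fun h => h * (u i)⁻¹) '' {g | g ∈ G ∧ wordLength g = n} := by
    rintro g ⟨hg, hgn⟩
    obtain ⟨i, hi, hin⟩ := discrete_ivt (fun i => wordLength (g * u i)) (2 * n) n
      (by simpa [hu] using hgn)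
      (by
        have h1 : u (2 * n) = l.prod := by simp [hu, ← hlen]
        have h2 := wordLength_mul (G.inv_mem hg) (G.mul_mem hg (hmem (2 * n)))
        rw [inv_mul_cancel_left, h1, hwl, wordLength_inv hg] at h2
        simp only [h1]
        omega)
      (by
        intro i hi
        have hlt : i < l.length := by omega
        have h1 : u (i + 1) = u i * l[i] := by
          simp only [hu]
          rw [List.take_succ_eq_append_getElem hlt, List.prod_append]
          simp
        have hsi : l[i] ∈ gens ∨ (l[i])⁻¹ ∈ gens := Or.inl (hl _ (List.getElem_mem hlt))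
        have h2 := wordLength_mul (G.mul_mem hg (hmem i)) (gen_mem hsi)
        have h3 := wordLength_gen hsi
        simp only [h1]
        rw [← mul_assoc]
        omega)
    refine Set.mem_iUnion₂.2 ⟨i, Finset.mem_range.2 (by omega), g * u i, ⟨G.mul_mem hg (hmem i), hin⟩, ?_⟩
    simp
  have hfin : ∀ i, ((fun h => h * (u i)⁻¹) '' {g | g ∈ G ∧ wordLength g = n}).Finite :=
    fun i => (sphere_finite n).image _
  have hle := Set.ncard_le_ncard hsub (Set.Finite.biUnion (Finset.finite_toSet _) fun i _ => hfin i)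
  refine hle.trans ?_
  have h2 : ∀ (s : Finset ℕ), (⋃ i ∈ s, (fun h => h * (u i)⁻¹) ''
      {g | g ∈ G ∧ wordLength g = n}).ncard ≤ s.card * sphGrowth n := by
    intro s
    induction s using Finset.induction_on with
    | empty => simp
    | insert x s hx ih =>
      rw [Finset.set_biUnion_insert, Finset.card_insert_of_notMem hx]
      refine (Set.ncard_union_le _ _).trans ?_
      have := Set.ncard_image_le (f := fun h => h * (u x)⁻¹) (sphere_finite n)
      unfold sphGrowth at ih ⊢
      nlinarith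
  simpa using h2 (Finset.range (2 * n + 1))

/-! ## Squaring inequality -/

theorem ball_sq_le (n : ℕ) :
    ballGrowth n ^ 2 ≤ (D8.ncard) ^ 2 * ballGrowth (6 * n + 2) := by
  choose! T hTG hTl F hFD hTF using fun g (hg : g ∈ G) => lift_elt hg
  set B : Set (Equiv.Perm Word) := {g | g ∈ G ∧ wordLength g ≤ n} with hB
  set B' : Set (Equiv.Perm Word) := {g | g ∈ G ∧ wordLength g ≤ 6 * n + 2} with hB'
  set Φ : (Equiv.Perm Word × Equiv.Perm Word) →
      (Equiv.Perm Word × (Equiv.Perm Word × Equiv.Perm Word)) :=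
    fun p => (T p.1 * (a * T p.2 * a), (F p.1, F p.2)) with hΦ
  have hmaps : ∀ p ∈ B ×ˢ B, Φ p ∈ B' ×ˢ (D8 ×ˢ D8) := by
    rintro ⟨x, y⟩ ⟨⟨hx, hxn⟩, ⟨hy, hyn⟩⟩
    simp only at hx hxn hy hyn
    refine ⟨⟨?_, ?_⟩, ⟨hFD x hx, hFD y hy⟩⟩
    · exact G.mul_mem (hTG x hx) (G.mul_mem (G.mul_mem a_mem_G (hTG y hy)) a_mem_G)
    · have h1 := wordLength_mul (hTG x hx) (G.mul_mem (G.mul_mem a_mem_G (hTG y hy)) a_mem_G)
      have h2 := wordLength_mul (G.mul_mem a_mem_G (hTG y hy)) a_mem_G
      have h3 := wordLength_mul a_mem_G (hTG y hy)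
      have h4 := hTl x hx
      have h5 := hTl y hy
      have h6 := wl_a
      simp only [hΦ]
      omega
  have hinj : Set.InjOn Φ (B ×ˢ B) := by
    rintro ⟨x, y⟩ ⟨⟨hx, -⟩, ⟨hy, -⟩⟩ ⟨x', y'⟩ ⟨⟨hx', -⟩, ⟨hy', -⟩⟩ h
    simp only at hx hy hx' hy'
    simp only [hΦ, Prod.mk.injEq] at h
    obtain ⟨h1, h2, h3⟩ := h
    have key : ∀ w, T x (a (T y (a w))) = T x' (a (T y' (a w))) := by
      intro w
      have := congrArg (fun g => g w) h1
      simpa [Equiv.Perm.mul_apply] using this
    have hxx : x = x' := by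
      have hall : ∀ w, x (F y w) = x' (F y w) := by
        intro w
        have := key (true :: w)
        simp only [a_cons, Bool.not_true, Bool.not_false, (hTF y hy _).2, (hTF y' hy' _).2,
          (hTF x hx _).1, (hTF x' hx' _).1, h3, List.cons.injEq, true_and] at this
        rw [h3]; exact this
      ext1 w
      have := hall ((F y).symm w)
      simpa using this
    have hyy : y = y' := by
      ext1 w
      have := key (false :: w)
      simp only [a_cons, Bool.not_true, Bool.not_false, (hTF y hy _).1, (hTF y' hy' _).1,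
        (hTF x hx _).2, (hTF x' hx' _).2, h2, List.cons.injEq, true_and] at this
      exact (F x').injective this
    rw [hxx, hyy]
  have hfin : (B' ×ˢ (D8 ×ˢ D8)).Finite :=
    (ball_finite _).prod (D8_finite.prod D8_finite)
  have := Set.ncard_le_ncard_of_injOn Φ hmaps hinj hfin
  rw [Set.ncard_prod, Set.ncard_prod, Set.ncard_prod] at this
  calc ballGrowth n ^ 2 = B.ncard * B.ncard := sq _
    _ ≤ B'.ncard * (D8.ncard * D8.ncard) := this
    _ = D8.ncard ^ 2 * B'.ncard := by ring

/-! ## The main theorem -/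

theorem ball_mono {m n : ℕ} (h : m ≤ n) : ballGrowth m ≤ ballGrowth n :=
  Set.ncard_le_ncard (fun _ hg => ⟨hg.1, hg.2.trans h⟩) (ball_finite n)

theorem succ_le_ball (n : ℕ) : n + 1 ≤ ballGrowth n := by
  choose l hl hlen hwl using exists_length
  have hinj : Set.InjOn (fun i => (l i).prod) (Finset.range (n + 1) : Set ℕ) := by
    intro i _ j _ hij
    have := congrArg wordLength hij
    simpa [hwl] using this
  have hmaps : ∀ i ∈ (Finset.range (n + 1) : Set ℕ),
      (fun i => (l i).prod) i ∈ {g | g ∈ G ∧ wordLength g ≤ n} := by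
    intro i hi
    refine ⟨prod_mem_G fun s hs => Or.inl (hl i s hs), ?_⟩
    have : i < n + 1 := by simpa using hi
    simp only [hwl]
    omega
  have := Set.ncard_le_ncard_of_injOn _ hmaps hinj (ball_finite n)
  rw [Set.ncard_coe_finset, Finset.card_range] at this
  exact this

theorem ball_le_sph_dilated :
    ∃ C : ℕ, 1 ≤ C ∧ ∀ n : ℕ, 1 ≤ n → ballGrowth n ≤ sphGrowth (C * n) := by
  set M := D8.ncard ^ 2 with hM
  have hM1 : 1 ≤ M := by
    have : 0 < D8.ncard := (Set.ncard_pos D8_finite).2 ⟨1, one_mem_D8⟩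
    rw [hM]
    exact Nat.one_le_pow _ _ this
  have hsq : ∀ n, 1 ≤ n → ballGrowth n ^ 2 ≤ M * ballGrowth (8 * n) := by
    intro n hn
    refine (ball_sq_le n).trans ?_
    exact Nat.mul_le_mul_left _ (ball_mono (by omega))
  refine ⟨8192 * M ^ 2, Nat.mul_pos (by norm_num) (Nat.pow_pos hM1), fun n hn => ?_⟩
  -- `k = 128 M^2 n`, `N = 8k`, radius `8N`
  set k := 128 * M ^ 2 * n with hk
  have hk1 : 1 ≤ k := Nat.mul_pos (Nat.mul_pos (by norm_num) (Nat.pow_pos hM1)) hn
  have hrad : 8192 * M ^ 2 * n = 8 * (8 * k) := by rw [hk]; ring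
  rw [hrad]
  have h1 := hsq k hk1
  have h2 := hsq (8 * k) (by omega)
  have h3 := succ_le_ball k
  have h4 := ball_le_sphere (8 * (8 * k))
  have h5 : ballGrowth n ≤ ballGrowth (8 * k) := by
    apply ball_mono
    have : n ≤ 128 * M ^ 2 * n := Nat.le_mul_of_pos_left _ (Nat.mul_pos (by norm_num) (Nat.pow_pos hM1))
    omega
  -- `γ(8k) ≥ M (128 k + 1)`
  have h6 : M * (128 * k + 1) ≤ ballGrowth (8 * k) := by
    have h7 : (k + 1) ^ 2 ≤ M * ballGrowth (8 * k) := by
      refine le_trans ?_ h1
      exact Nat.pow_le_pow_left h3 2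
    have h8 : M * (M * (128 * k + 1)) ≤ (k + 1) ^ 2 := by
      have h9 : 128 * M ^ 2 ≤ k := by
        rw [hk]; exact Nat.le_mul_of_pos_right _ hn
      nlinarith
    exact Nat.le_of_mul_le_mul_left (h8.trans h7) hM1
  have h10 : ballGrowth n * (128 * k + 1) ≤ ballGrowth (8 * (8 * k)) := by
    have : M * (ballGrowth n * (128 * k + 1)) ≤ M * ballGrowth (8 * (8 * k)) := by
      calc M * (ballGrowth n * (128 * k + 1)) = ballGrowth n * (M * (128 * k + 1)) := by ring
        _ ≤ ballGrowth (8 * k) * ballGrowth (8 * k) := Nat.mul_le_mul h5 h6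
        _ = ballGrowth (8 * k) ^ 2 := by ring
        _ ≤ _ := h2
    exact Nat.le_of_mul_le_mul_left this hM1
  have h11 : (128 * k + 1) * ballGrowth n ≤ (128 * k + 1) * sphGrowth (8 * (8 * k)) := by
    calc (128 * k + 1) * ballGrowth n = ballGrowth n * (128 * k + 1) := by ring
      _ ≤ ballGrowth (8 * (8 * k)) := h10
      _ ≤ (2 * (8 * (8 * k)) + 1) * sphGrowth (8 * (8 * k)) := h4
      _ = (128 * k + 1) * sphGrowth (8 * (8 * k)) := by ring
  exact Nat.le_of_mul_le_mul_left h11 (by omega)

/-- **Spherical growth versus ball growth of the first Grigorchuk group.** The two growth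
functions are equivalent. -/
theorem result : GrowthEquiv sphGrowth ballGrowth := by
  refine ⟨⟨1, le_rfl, fun n _ => ?_⟩, ball_le_sph_dilated⟩
  rw [one_mul]
  exact Set.ncard_le_ncard (fun _ hg => ⟨hg.1, hg.2.le⟩) (ball_finite n)

end Pool.Agent.Results.MP_03d093_al.SphericalGrowth
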